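import Pool.Agent.Lib.MP_e3c3cf_lc.Main

open Pool.Agent.Lib.MP_e3c3cf_lc

namespace Pool.Agent.Results.MP_e3c3cf_lc.SquareOntoPartitions

/-- There is a model of ZF containing an infinite set `A` and a surjection from `A × A` onto the
set of all partitions of `A`. -/
theorem result :
    ∃ (M : Type) (E : M → M → Prop), IsModelZF E ∧
      ∃ A S Q f : M, IsInfinite E A ∧ IsSquare E A S ∧ IsPartitionSet E A Q ∧
        IsSurjection E f S Q :=
  exists_model

end Pool.Agent.Results.MP_e3c3cf_lc.SquareOntoPartitions
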